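import Mathlib

/-!
# A surjective binary cellular automaton with a prefix sum smaller than that of the identity

The rule of radius `8` is a composition of two permutive rules. First
`y_i = x_i + (1 + x_{i+1}) (1 + x_{i+2})` (permutive in its left variable), and then
`z_i = y_{i+6} + g (y_i, …, y_{i+5})` (permutive in its right variable), with a suitable Boolean
function `g` of six variables. Both maps are onto by compactness. Among the words of length `9` with
at most four ones only `92` are mapped to `1`, while the identity maps `93` of them to `1`.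
-/

set_option autoImplicit false

namespace Pool.Agent.Results.MP_0d2fa0_co.PrefixSumCounterexample

open Finset

/-- The cellular automaton of radius `r` with the local rule `f`: the map
`F(x)_i = f(x_i, x_{i+1}, …, x_{i+r})` on the bi-infinite 0-1 sequences. -/
def automaton {r : ℕ} (f : (Fin (r + 1) → Bool) → Bool) (x : ℤ → Bool) : ℤ → Bool :=
  fun i => f fun j => x (i + (j : ℕ))

/-- The number of ones of a word. -/
def ones {m : ℕ} (w : Fin m → Bool) : ℕ :=
  (univ.filter fun j => w j = true).card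

/-- `N(F, r, k)`: the number of words with `k` ones which the local rule maps to `1`. -/
def histogram {r : ℕ} (f : (Fin (r + 1) → Bool) → Bool) (k : ℕ) : ℕ :=
  (univ.filter fun w : Fin (r + 1) → Bool => f w = true ∧ ones w = k).card

/-- Compactness: local conditions which can be satisfied on every finite window can be satisfied. -/
theorem compactness (Φ : ℤ → (ℤ → Bool) → Prop) (S : ℤ → Finset ℤ)
    (hloc : ∀ i x x', (∀ j ∈ S i, x j = x' j) → Φ i x → Φ i x')
    (X : ℕ → ℤ → Bool) (hX : ∀ (N : ℕ) (i : ℤ), i.natAbs ≤ N → Φ i (X N)) :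
    ∃ x, ∀ i, Φ i x := by
  classical
  let U : Ultrafilter ℕ := Filter.hyperfilter ℕ
  let x : ℤ → Bool := fun j => decide (∀ᶠ N in (U : Filter ℕ), X N j = true)
  have hx : ∀ j, ∀ᶠ N in (U : Filter ℕ), X N j = x j := by
    intro j
    by_cases h : ∀ᶠ N in (U : Filter ℕ), X N j = true
    · have hxj : x j = true := by simp only [x, decide_eq_true_eq]; exact h
      rw [hxj]; exact h
    · have hxj : x j = false := by simp only [x, decide_eq_false_iff_not]; exact h
      rw [hxj]
      have h2 := (Ultrafilter.eventually_not (f := U)).mpr h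
      filter_upwards [h2] with N hN
      simpa using hN
  refine ⟨x, fun i => ?_⟩
  have h1 : ∀ᶠ N in (U : Filter ℕ), ∀ j ∈ S i, X N j = x j := by
    rw [Filter.eventually_all_finset]
    intro j _
    exact hx j
  have h2 : ∀ᶠ N in (U : Filter ℕ), i.natAbs ≤ N := by
    have h3 : ∀ᶠ N in (Filter.atTop : Filter ℕ), i.natAbs ≤ N := Filter.eventually_ge_atTop _
    exact Nat.hyperfilter_le_atTop h3
  obtain ⟨N, hN1, hN2⟩ := (h1.and h2).exists
  exact hloc i (X N) x hN1 (hX N i hN2)

/-- Maps which are permutive in the left variable are onto. -/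
theorem surjective_left (m : ℕ) (g : (Fin m → Bool) → Bool) :
    Function.Surjective fun (x : ℤ → Bool) (i : ℤ) =>
      xor (x i) (g fun j => x (i + 1 + (j : ℕ))) := by
  intro t
  -- fill in the positions `N, N - 1, …`
  let fill : ℕ → ℕ → ℤ → Bool := fun N k =>
    Nat.rec (fun _ => false) (fun k x => Function.update x ((N : ℤ) - k)
      (xor (t ((N : ℤ) - k)) (g fun j => x ((N : ℤ) - k + 1 + (j : ℕ))))) k
  have hfill : ∀ (N k : ℕ) (i : ℤ), (N : ℤ) - k < i → i ≤ N →
      xor (fill N k i) (g fun j => fill N k (i + 1 + (j : ℕ))) = t i := by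
    intro N k
    induction k with
    | zero => intro i h1 h2; push_cast at h1; omega
    | succ k ih =>
      intro i h1 h2
      have hstep : fill N (k + 1) = Function.update (fill N k) ((N : ℤ) - k)
        (xor (t ((N : ℤ) - k)) (g fun j => fill N k ((N : ℤ) - k + 1 + (j : ℕ)))) := rfl
      have hge : ∀ l : ℤ, (N : ℤ) - k < l → fill N (k + 1) l = fill N k l := by
        intro l hl
        rw [hstep, Function.update_of_ne (by omega)]
      have hg : (fun j : Fin m => fill N (k + 1) (i + 1 + (j : ℕ))) =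
          fun j : Fin m => fill N k (i + 1 + (j : ℕ)) := by
        funext j
        apply hge
        push_cast at h1
        omega
      rw [hg]
      rcases eq_or_ne i ((N : ℤ) - k) with h | h
      · subst h
        rw [hstep, Function.update_self]
        cases t ((N : ℤ) - k) <;> cases (g fun j => fill N k ((N : ℤ) - k + 1 + (j : ℕ))) <;> rfl
      · have h3 : (N : ℤ) - k < i := by push_cast at h1; omega
        rw [hge i h3]
        exact ih i h3 h2
  obtain ⟨x, hx⟩ := compactness
    (fun i x => xor (x i) (g fun j => x (i + 1 + (j : ℕ))) = t i)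
    (fun i => insert i (univ.image fun j : Fin m => i + 1 + ((j : ℕ) : ℤ)))
    (by
      intro i x x' h h1
      have h2 : x i = x' i := h i (mem_insert_self _ _)
      have h3 : (fun j : Fin m => x (i + 1 + (j : ℕ))) = fun j : Fin m => x' (i + 1 + (j : ℕ)) := by
        funext j
        exact h _ (mem_insert_of_mem (mem_image_of_mem _ (mem_univ j)))
      rw [← h2, ← h3]
      exact h1)
    (fun N => fill N (2 * N + 1))
    (by
      intro N i h
      exact hfill N (2 * N + 1) i (by push_cast; omega) (by omega))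
  exact ⟨x, funext hx⟩

/-- Maps which are permutive in the right variable are onto. -/
theorem surjective_right (m : ℕ) (g : (Fin m → Bool) → Bool) :
    Function.Surjective fun (x : ℤ → Bool) (i : ℤ) =>
      xor (x (i + m)) (g fun j => x (i + (j : ℕ))) := by
  intro t
  obtain ⟨y, hy⟩ := surjective_left m (fun v => g fun j => v j.rev) fun i => t (-i - m)
  refine ⟨fun i => y (-i), funext fun i => ?_⟩
  have h := congrFun hy (-i - m)
  simp only at h ⊢
  have h1 : -(i + (m : ℤ)) = -i - m := by ring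
  have h2 : t (-(-i - (m : ℤ)) - m) = t i := by congr 1; ring
  rw [h2] at h
  rw [h1, ← h]
  congr 2
  funext j
  congr 1
  have h3 : ((j.rev : Fin m) : ℕ) + (j : ℕ) + 1 = m := by
    rw [Fin.val_rev]; omega
  omega

/-- The first rule, `x_0 + (1 + x_1) (1 + x_2)`. -/
def first (a b c : Bool) : Bool := xor a (!b && !c)

/-- The table of the function `g` of the second rule, a number with `64` binary digits. -/
def table (v : Fin 6 → Bool) : Bool :=
  Nat.testBit 1883683325806120976
    ((v 0).toNat * 32 + (v 1).toNat * 16 + (v 2).toNat * 8 + (v 3).toNat * 4 + (v 4).toNat * 2 +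
      (v 5).toNat)

/-- The local rule. -/
def rule (w : Fin (8 + 1) → Bool) : Bool :=
  xor (first (w 6) (w 7) (w 8))
    (table ![first (w 0) (w 1) (w 2), first (w 1) (w 2) (w 3), first (w 2) (w 3) (w 4),
      first (w 3) (w 4) (w 5), first (w 4) (w 5) (w 6), first (w 5) (w 6) (w 7)])

theorem rule_surjective : Function.Surjective (automaton rule) := by
  intro t
  obtain ⟨y, hy⟩ := surjective_right 6 table t
  obtain ⟨x, hx⟩ := surjective_left 2 (fun v => !v 0 && !v 1) y
  refine ⟨x, funext fun i => ?_⟩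
  have hF : ∀ k l m : ℕ, l = k + 1 → m = k + 2 →
      first (x (i + (k : ℤ))) (x (i + (l : ℤ))) (x (i + (m : ℤ))) = y (i + (k : ℤ)) := by
    intro k l m hl hm
    subst hl hm
    have h := congrFun hx (i + (k : ℤ))
    have h1 : i + (k : ℤ) + 1 + (((0 : Fin 2) : ℕ) : ℤ) = i + ((k + 1 : ℕ) : ℤ) := by
      rw [Fin.val_zero]; push_cast; ring
    have h2 : i + (k : ℤ) + 1 + (((1 : Fin 2) : ℕ) : ℤ) = i + ((k + 2 : ℕ) : ℤ) := by
      rw [Fin.val_one]; push_cast; ring
    simp only [h1, h2] at h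
    exact h
  have hT := congrFun hy i
  rw [← hT]
  have h6 : first (x (i + ((6 : ℕ) : ℤ))) (x (i + ((7 : ℕ) : ℤ))) (x (i + ((8 : ℕ) : ℤ))) =
      y (i + ((6 : ℕ) : ℤ)) := hF 6 7 8 rfl rfl
  have hv : ![first (x (i + ((0 : ℕ) : ℤ))) (x (i + ((1 : ℕ) : ℤ))) (x (i + ((2 : ℕ) : ℤ))),
      first (x (i + ((1 : ℕ) : ℤ))) (x (i + ((2 : ℕ) : ℤ))) (x (i + ((3 : ℕ) : ℤ))),
      first (x (i + ((2 : ℕ) : ℤ))) (x (i + ((3 : ℕ) : ℤ))) (x (i + ((4 : ℕ) : ℤ))),
      first (x (i + ((3 : ℕ) : ℤ))) (x (i + ((4 : ℕ) : ℤ))) (x (i + ((5 : ℕ) : ℤ))),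
      first (x (i + ((4 : ℕ) : ℤ))) (x (i + ((5 : ℕ) : ℤ))) (x (i + ((6 : ℕ) : ℤ))),
      first (x (i + ((5 : ℕ) : ℤ))) (x (i + ((6 : ℕ) : ℤ))) (x (i + ((7 : ℕ) : ℤ)))] =
      fun j : Fin 6 => y (i + ((j : ℕ) : ℤ)) := by
    rw [hF 0 1 2 rfl rfl, hF 1 2 3 rfl rfl, hF 2 3 4 rfl rfl, hF 3 4 5 rfl rfl, hF 4 5 6 rfl rfl,
      hF 5 6 7 rfl rfl]
    funext j
    fin_cases j <;> rfl
  change xor (first (x (i + ((6 : ℕ) : ℤ))) (x (i + ((7 : ℕ) : ℤ))) (x (i + ((8 : ℕ) : ℤ))))
    (table ![first (x (i + ((0 : ℕ) : ℤ))) (x (i + ((1 : ℕ) : ℤ))) (x (i + ((2 : ℕ) : ℤ))),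
      first (x (i + ((1 : ℕ) : ℤ))) (x (i + ((2 : ℕ) : ℤ))) (x (i + ((3 : ℕ) : ℤ))),
      first (x (i + ((2 : ℕ) : ℤ))) (x (i + ((3 : ℕ) : ℤ))) (x (i + ((4 : ℕ) : ℤ))),
      first (x (i + ((3 : ℕ) : ℤ))) (x (i + ((4 : ℕ) : ℤ))) (x (i + ((5 : ℕ) : ℤ))),
      first (x (i + ((4 : ℕ) : ℤ))) (x (i + ((5 : ℕ) : ℤ))) (x (i + ((6 : ℕ) : ℤ))),
      first (x (i + ((5 : ℕ) : ℤ))) (x (i + ((6 : ℕ) : ℤ))) (x (i + ((7 : ℕ) : ℤ)))]) = _
  rw [h6, hv]

theorem sum_rule : ∑ k ∈ range (4 + 1), histogram rule k = 92 := by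
  decide +kernel

theorem sum_identity : ∑ k ∈ range (4 + 1), histogram (r := 8) (fun w => w 0) k = 93 := by
  decide +kernel

/-- There is a surjective cellular automaton `F` of radius `8` on the binary full shift with
`N(F,8,0) + ⋯ + N(F,8,4) = 92 < 93 = N(id,8,0) + ⋯ + N(id,8,4)`. -/
theorem result :
    ∃ f : (Fin (8 + 1) → Bool) → Bool, Function.Surjective (automaton f) ∧
      ∑ k ∈ range (4 + 1), histogram f k = 92 ∧
      ∑ k ∈ range (4 + 1), histogram (r := 8) (fun w => w 0) k = 93 :=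
  ⟨rule, rule_surjective, sum_rule, sum_identity⟩

end Pool.Agent.Results.MP_0d2fa0_co.PrefixSumCounterexample
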